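import Mathlib

namespace Pool.Agent.V11124.NK

open Finset

/-- minimum value of an energy function -/
noncomputable def mn {Ω : Type*} (g : Ω → ℕ) : ℕ := sInf (Set.range g)

/-- penalty of an edge -/
def vi {Ω V S : Type*} [DecidableEq S] (y : Ω → V → S) (e : V × V) : Ω → ℕ :=
  fun ω => if y ω e.1 = y ω e.2 then 2 else 0

open Classical in
/-- frozen indicator at level `j` -/
noncomputable def fz {Ω V S : Type*} (y : Ω → V → S) (g : Ω → ℕ) (j : ℕ) (e : V × V) : ℕ :=
  if ∀ ω, g ω ≤ mn g + j → y ω e.1 = y ω e.2 then 1 else 0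

/-- expected value of `Φ (min)` after adding `k` random edges -/
noncomputable def ER {Ω V S : Type*} [DecidableEq S] {I : Type*} [Fintype I]
    (y : Ω → V → S) (Φ : ℕ → ℝ) (w : I → ℝ) (ε : I → V × V) :
    ℕ → (Ω → ℕ) → ℝ
  | 0, g => Φ (mn g)
  | k + 1, g => ∑ i, w i * ER y Φ w ε k (g + vi y (ε i))

/-- expected minimum after adding a binomial number of random edges -/
noncomputable def EP {Ω V S : Type*} [DecidableEq S] [Fintype V] (y : Ω → V → S) (α W : ℝ) :
    ℕ → (Ω → ℕ) → ℝ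
  | 0, g => (mn g : ℝ)
  | k + 1, g => α * (∑ e : V × V, W * EP y α W k (g + vi y e)) + (1 - α) * EP y α W k g

section
variable {Ω V S : Type*} [Nonempty Ω] [DecidableEq S]

omit [Nonempty Ω] in
theorem mn_le (g : Ω → ℕ) (ω : Ω) : mn g ≤ g ω := Nat.sInf_le ⟨ω, rfl⟩

theorem exists_mn (g : Ω → ℕ) : ∃ ω, g ω = mn g := Nat.sInf_mem (Set.range_nonempty g)

theorem le_mn {g : Ω → ℕ} {a : ℕ} (h : ∀ ω, a ≤ g ω) : a ≤ mn g := by
  obtain ⟨ω, hω⟩ := exists_mn g
  rw [← hω]; exact h ω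

omit [Nonempty Ω] in
theorem vi_le (y : Ω → V → S) (e : V × V) (ω : Ω) : vi y e ω ≤ 2 := by
  unfold vi; split_ifs <;> omega

theorem mn_add_vi (y : Ω → V → S) (g : Ω → ℕ) (e : V × V) :
    mn (g + vi y e) = mn g + fz y g 0 e + fz y g 1 e := by
  classical
  obtain ⟨ω0, h0⟩ := exists_mn g
  by_cases P0 : ∀ ω, g ω ≤ mn g + 0 → y ω e.1 = y ω e.2
  · by_cases P1 : ∀ ω, g ω ≤ mn g + 1 → y ω e.1 = y ω e.2
    · have e0 : fz y g 0 e = 1 := if_pos P0
      have e1 : fz y g 1 e = 1 := if_pos P1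
      rw [e0, e1]
      apply le_antisymm
      · refine (mn_le _ ω0).trans ?_
        have := vi_le y e ω0
        simp only [Pi.add_apply]; omega
      · apply le_mn
        intro ω
        simp only [Pi.add_apply, vi]
        by_cases h : g ω ≤ mn g + 1
        · rw [if_pos (P1 ω h)]; have := mn_le g ω; omega
        · omega
    · have e0 : fz y g 0 e = 1 := if_pos P0
      have e1 : fz y g 1 e = 0 := if_neg P1
      rw [e0, e1]
      push Not at P1
      obtain ⟨ω1, h1, h1'⟩ := P1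
      apply le_antisymm
      · refine (mn_le _ ω1).trans ?_
        simp only [Pi.add_apply, vi, if_neg h1']; omega
      · apply le_mn
        intro ω
        simp only [Pi.add_apply, vi]
        by_cases h : g ω ≤ mn g + 0
        · rw [if_pos (P0 ω h)]; have := mn_le g ω; omega
        · omega
  · have P1 : ¬ ∀ ω, g ω ≤ mn g + 1 → y ω e.1 = y ω e.2 :=
      fun h => P0 fun ω hω => h ω (by omega)
    have e0 : fz y g 0 e = 0 := if_neg P0
    have e1 : fz y g 1 e = 0 := if_neg P1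
    rw [e0, e1]
    push Not at P0
    obtain ⟨ω1, h1, h1'⟩ := P0
    apply le_antisymm
    · refine (mn_le _ ω1).trans ?_
      simp only [Pi.add_apply, vi, if_neg h1']; omega
    · apply le_mn
      intro ω
      have := mn_le g ω
      simp only [Pi.add_apply]; omega

theorem sum_kernel {V T : Type*} [Fintype V] [DecidableEq T] (φ : V → T) (s : Finset T)
    (hs : ∀ p, φ p ∈ s) :
    ∑ e : V × V, (if φ e.1 = φ e.2 then (1:ℝ) else 0) =
      ∑ τ ∈ s, (∑ p, if φ p = τ then (1:ℝ) else 0) ^ 2 := by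
  rw [Fintype.sum_prod_type]
  simp_rw [sq, Finset.sum_mul_sum]
  rw [Finset.sum_comm]
  rw [Finset.sum_comm]
  symm
  rw [Finset.sum_comm]
  apply Finset.sum_congr rfl
  intro p _
  rw [Finset.sum_comm]
  apply Finset.sum_congr rfl
  intro q _
  simp only [ite_mul, one_mul, zero_mul, Finset.sum_ite_eq, hs, if_true]
  simp only [eq_comm]

theorem titu (a b : ℝ) {m n : ℝ} (hm : 0 < m) (hn : 0 < n) :
    (a + b) ^ 2 / (m + n) ≤ a ^ 2 / m + b ^ 2 / n := by
  rw [div_add_div _ _ hm.ne' hn.ne', div_le_div_iff₀ (by positivity) (by positivity)]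
  nlinarith [sq_nonneg (a * n - b * m)]

theorem kernel_ineq {V V1 V2 T : Type*} [Fintype V] [Fintype V1] [Fintype V2] [DecidableEq T]
    (i1 : V1 → V) (i2 : V2 → V)
    (hsum : ∀ f : V → ℝ, ∑ p, f p = ∑ p, f (i1 p) + ∑ p, f (i2 p))
    (m n : ℝ) (hm : 0 < m) (hn : 0 < n) (φ : V → T) :
    (∑ e : V × V, (if φ e.1 = φ e.2 then (1:ℝ) else 0)) / (m + n) ≤
      (∑ e : V1 × V1, (if φ (i1 e.1) = φ (i1 e.2) then (1:ℝ) else 0)) / m +
      (∑ e : V2 × V2, (if φ (i2 e.1) = φ (i2 e.2) then (1:ℝ) else 0)) / n := by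
  classical
  set s : Finset T := univ.image φ
  rw [sum_kernel φ s (fun p => by simp [s]),
    sum_kernel (fun p => φ (i1 p)) s (fun p => by simp [s]),
    sum_kernel (fun p => φ (i2 p)) s (fun p => by simp [s])]
  rw [Finset.sum_div, Finset.sum_div, Finset.sum_div, ← Finset.sum_add_distrib]
  apply Finset.sum_le_sum
  intro τ _
  rw [hsum]
  exact titu _ _ hm hn

theorem base_ineq {V1 V2 : Type*} [Fintype V] [Fintype V1] [Fintype V2] (y : Ω → V → S)
    (i1 : V1 → V) (i2 : V2 → V)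
    (hsum : ∀ f : V → ℝ, ∑ p, f p = ∑ p, f (i1 p) + ∑ p, f (i2 p))
    (h1 : 0 < Fintype.card V1) (h2 : 0 < Fintype.card V2) (g : Ω → ℕ) :
    (∑ e : V × V, (mn (g + vi y e) : ℝ)) / ((Fintype.card V1 : ℝ) + Fintype.card V2) ≤
      (∑ e : V1 × V1, (mn (g + vi y (i1 e.1, i1 e.2)) : ℝ)) / (Fintype.card V1 : ℝ) +
      (∑ e : V2 × V2, (mn (g + vi y (i2 e.1, i2 e.2)) : ℝ)) / (Fintype.card V2 : ℝ) := by
  classical
  have hm : (0:ℝ) < Fintype.card V1 := by exact_mod_cast h1
  have hn : (0:ℝ) < Fintype.card V2 := by exact_mod_cast h2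
  have hc : (Fintype.card V : ℝ) = Fintype.card V1 + Fintype.card V2 := by
    have := hsum (fun _ => 1)
    simpa using this
  have key : ∀ j e, (fz y g j e : ℝ) =
      if (fun ω : {ω // g ω ≤ mn g + j} => y ω e.1) = (fun ω : {ω // g ω ≤ mn g + j} => y ω e.2)
        then 1 else 0 := by
    intro j e
    unfold fz
    simp only [funext_iff, Subtype.forall]
    split_ifs <;> simp
  have k0 := kernel_ineq i1 i2 hsum _ _ hm hn
    (fun p => (fun ω : {ω // g ω ≤ mn g + 0} => y ω p))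
  have k1 := kernel_ineq i1 i2 hsum _ _ hm hn
    (fun p => (fun ω : {ω // g ω ≤ mn g + 1} => y ω p))
  have e1 : ∀ e : V × V, (mn (g + vi y e) : ℝ) = mn g + fz y g 0 e + fz y g 1 e := by
    intro e; rw [mn_add_vi]; push_cast; ring
  simp_rw [e1, Finset.sum_add_distrib, key]
  simp only [Finset.sum_const, Finset.card_univ, Fintype.card_prod, nsmul_eq_mul, Nat.cast_mul, hc]
  set M := (Fintype.card V1 : ℝ)
  set N := (Fintype.card V2 : ℝ)
  have hMN : 0 < M + N := by positivity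
  simp only [add_div]
  have t1 : (M + N) * (M + N) * (mn g : ℝ) / (M + N) = (M+N) * mn g := by field_simp
  have t2 : M * M * (mn g : ℝ) / M = M * mn g := by field_simp
  have t3 : N * N * (mn g : ℝ) / N = N * mn g := by field_simp
  rw [t1, t2, t3]
  linarith

theorem ER_comm_le {I J : Type*} [Fintype I] [Fintype J] (y : Ω → V → S)
    (w : I → ℝ) (ε : I → V × V) (w' : J → ℝ) (ε' : J → V × V) (hw' : ∀ j, 0 ≤ w' j)
    (hb : ∀ g : Ω → ℕ, ∑ i, w i * (mn (g + vi y (ε i)) : ℝ) ≤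
      ∑ j, w' j * (mn (g + vi y (ε' j)) : ℝ)) (k : ℕ) (g : Ω → ℕ) :
    ∑ i, w i * ER y (fun x => (x:ℝ)) w' ε' k (g + vi y (ε i)) ≤
      ∑ j, w' j * ER y (fun x => (x:ℝ)) w' ε' k (g + vi y (ε' j)) := by
  induction k generalizing g with
  | zero => simpa [ER] using hb g
  | succ k ih =>
    have h1 : ∑ i, w i * ER y (fun x => (x:ℝ)) w' ε' (k+1) (g + vi y (ε i)) =
        ∑ j, w' j * ∑ i, w i * ER y (fun x => (x:ℝ)) w' ε' k ((g + vi y (ε' j)) + vi y (ε i)) := by
      simp only [ER, Finset.mul_sum]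
      rw [Finset.sum_comm]
      apply Finset.sum_congr rfl; intro j _
      apply Finset.sum_congr rfl; intro i _
      rw [add_right_comm g]
      ring
    rw [h1]
    apply Finset.sum_le_sum
    intro j _
    apply mul_le_mul_of_nonneg_left _ (hw' j)
    exact ih _

theorem ER_le {I J : Type*} [Fintype I] [Fintype J] (y : Ω → V → S)
    (w : I → ℝ) (ε : I → V × V) (w' : J → ℝ) (ε' : J → V × V) (hw : ∀ i, 0 ≤ w i)
    (hw' : ∀ j, 0 ≤ w' j)
    (hb : ∀ g : Ω → ℕ, ∑ i, w i * (mn (g + vi y (ε i)) : ℝ) ≤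
      ∑ j, w' j * (mn (g + vi y (ε' j)) : ℝ)) (k : ℕ) (g : Ω → ℕ) :
    ER y (fun x => (x:ℝ)) w ε k g ≤ ER y (fun x => (x:ℝ)) w' ε' k g := by
  induction k generalizing g with
  | zero => exact le_rfl
  | succ k ih =>
    refine le_trans ?_ (ER_comm_le y w ε w' ε' hw' hb k g)
    simp only [ER]
    apply Finset.sum_le_sum
    intro i _
    exact mul_le_mul_of_nonneg_left (ih _) (hw i)

variable [Fintype V]

theorem EA_le (y : Ω → V → S) {W : ℝ} (hW0 : 0 ≤ W) (hW : ∑ _e : V × V, W = 1) (k : ℕ)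
    {g g' : Ω → ℕ} {c : ℕ} (h : ∀ ω, g ω ≤ g' ω + c) :
    ER y (fun x => (x:ℝ)) (fun _ : V × V => W) id k g ≤
      ER y (fun x => (x:ℝ)) (fun _ : V × V => W) id k g' + c := by
  induction k generalizing g g' with
  | zero =>
    simp only [ER]
    obtain ⟨ω, hω⟩ := exists_mn g'
    have := mn_le g ω
    have := h ω
    exact_mod_cast (by omega : mn g ≤ mn g' + c)
  | succ k ih =>
    simp only [ER]
    calc ∑ e : V × V, W * ER y (fun x => (x:ℝ)) (fun _ : V × V => W) id k (g + vi y (id e))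
        ≤ ∑ e : V × V, (W * ER y (fun x => (x:ℝ)) (fun _ : V × V => W) id k (g' + vi y (id e))
            + c * W) := by
          apply Finset.sum_le_sum
          intro e _
          have := mul_le_mul_of_nonneg_left (ih (g := g + vi y (id e)) (g' := g' + vi y (id e))
            (fun ω => by have := h ω; simp only [Pi.add_apply]; omega)) hW0
          linarith
      _ = _ := by
          have h9 : ∑ _e : V × V, (c:ℝ) * W = c := by rw [← Finset.mul_sum, hW, mul_one]
          rw [Finset.sum_add_distrib, h9]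

theorem mn_le_EA (y : Ω → V → S) {W : ℝ} (hW0 : 0 ≤ W) (hW : ∑ _e : V × V, W = 1) (k : ℕ)
    (g : Ω → ℕ) : (mn g : ℝ) ≤ ER y (fun x => (x:ℝ)) (fun _ : V × V => W) id k g := by
  induction k generalizing g with
  | zero => exact le_rfl
  | succ k ih =>
    simp only [ER]
    calc (mn g : ℝ) = ∑ _e : V × V, W * (mn g : ℝ) := by
          rw [← Finset.sum_mul, hW, one_mul]
      _ ≤ _ := by
          apply Finset.sum_le_sum
          intro e _
          apply mul_le_mul_of_nonneg_left _ hW0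
          refine le_trans ?_ (ih _)
          exact_mod_cast le_mn (fun ω => (mn_le g ω).trans (by simp only [Pi.add_apply]; omega))

theorem EP_le_mn (y : Ω → V → S) {α W : ℝ} (ha0 : 0 ≤ α) (ha1 : α ≤ 1)
    (hW0 : 0 ≤ W) (hW : ∑ _e : V × V, W = 1) (k : ℕ)
    (g : Ω → ℕ) : EP y α W k g ≤ mn g + 2 * (k * α) := by
  induction k generalizing g with
  | zero => simp [EP]
  | succ k ih =>
    simp only [EP]
    have h1 : ∑ e : V × V, W * EP y α W k (g + vi y e) ≤ (mn g : ℝ) + 2 + 2 * (k * α) := by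
      calc ∑ e : V × V, W * EP y α W k (g + vi y e) ≤
          ∑ _e : V × V, W * ((mn g : ℝ) + 2 + 2 * (k * α)) := by
            apply Finset.sum_le_sum
            intro e _
            apply mul_le_mul_of_nonneg_left _ hW0
            refine (ih _).trans ?_
            have : mn (g + vi y e) ≤ mn g + 2 := by
              obtain ⟨ω, hω⟩ := exists_mn g
              have h3 := mn_le (g + vi y e) ω
              have := vi_le y e ω
              simp only [Pi.add_apply] at h3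
              omega
            have : (mn (g + vi y e) : ℝ) ≤ mn g + 2 := by exact_mod_cast this
            linarith
        _ = _ := by rw [← Finset.sum_mul, hW, one_mul]
    have h2 := ih g
    have h3 := mul_le_mul_of_nonneg_left h1 ha0
    have h4 := mul_le_mul_of_nonneg_left h2 (sub_nonneg.2 ha1)
    push_cast
    nlinarith

theorem EP_le_EA (y : Ω → V → S) {α W s : ℝ} (ha0 : 0 ≤ α) (ha1 : α ≤ 1)
    (hW0 : 0 ≤ W) (hW : ∑ _e : V × V, W = 1) (hs : 0 < s) (k m : ℕ)
    (g : Ω → ℕ) : EP y α W k g ≤ ER y (fun x => (x:ℝ)) (fun _ : V × V => W) id m g +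
      (k * α * (1 - α) + (k * α - m) ^ 2) / s + s := by
  induction k generalizing m g with
  | zero =>
    have h1 := mn_le_EA y hW0 hW m g
    simp only [EP]
    have : 0 ≤ (((0:ℕ):ℝ) * α * (1 - α) + (((0:ℕ):ℝ) * α - m) ^ 2) / s := by
      apply div_nonneg _ hs.le
      push_cast
      nlinarith [sq_nonneg ((0:ℝ) * α - m)]
    linarith
  | succ k ih =>
    cases m with
    | zero =>
      have h1 := EP_le_mn y ha0 ha1 hW0 hW (k+1) g
      refine h1.trans ?_
      simp only [ER]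
      set q : ℝ := ((k+1 : ℕ):ℝ) * α
      have hq : 0 ≤ q := by positivity
      have h2 : 2 * q * s ≤ (q * (1 - α) + (q - ((0:ℕ):ℝ)) ^ 2) + s * s := by
        push_cast
        nlinarith [sq_nonneg (q - s), mul_nonneg hq (sub_nonneg.2 ha1)]
      have h3 : 2 * q ≤ (q * (1 - α) + (q - ((0:ℕ):ℝ)) ^ 2) / s + s := by
        rw [div_add' _ _ _ hs.ne', le_div_iff₀ hs]
        linarith
      linarith
    | succ m =>
      have h1 : ∑ e : V × V, W * EP y α W k (g + vi y e) ≤
          ER y (fun x => (x:ℝ)) (fun _ : V × V => W) id (m+1) g +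
            (k * α * (1 - α) + (k * α - m) ^ 2) / s + s := by
        calc ∑ e : V × V, W * EP y α W k (g + vi y e) ≤
            ∑ e : V × V, (W * ER y (fun x => (x:ℝ)) (fun _ : V × V => W) id m (g + vi y (id e)) +
              W * ((k * α * (1 - α) + (k * α - m) ^ 2) / s + s)) := by
              apply Finset.sum_le_sum
              intro e _
              rw [← mul_add]
              apply mul_le_mul_of_nonneg_left _ hW0
              have := ih m (g + vi y e)
              simp only [id]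
              linarith
          _ = _ := by
              rw [Finset.sum_add_distrib, ← Finset.sum_mul, hW, one_mul]
              simp only [ER]
              ring
      have h2 := ih (m+1) g
      simp only [EP]
      have h3 := mul_le_mul_of_nonneg_left h1 ha0
      have h4 := mul_le_mul_of_nonneg_left h2 (sub_nonneg.2 ha1)
      refine (add_le_add h3 h4).trans (le_of_eq ?_)
      push_cast
      field_simp
      ring

theorem var_le (y : Ω → V → S) {W : ℝ} (hW0 : 0 ≤ W) (hW : ∑ _e : V × V, W = 1) (c : ℝ) (k : ℕ)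
    (g : Ω → ℕ) : ER y (fun x => ((x:ℝ) - c) ^ 2) (fun _ : V × V => W) id k g ≤
      (ER y (fun x => (x:ℝ)) (fun _ : V × V => W) id k g - c) ^ 2 + 4 * k := by
  induction k generalizing g with
  | zero => simp [ER]
  | succ k ih =>
    set a : V × V → ℝ := fun e => ER y (fun x => (x:ℝ)) (fun _ : V × V => W) id k (g + vi y (id e))
      with ha
    set A : ℝ := ER y (fun x => (x:ℝ)) (fun _ : V × V => W) id (k+1) g with hA
    have hAe : A = ∑ e, W * a e := by rw [hA, ha]; simp only [ER]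
    have hlo : ∀ e, ER y (fun x => (x:ℝ)) (fun _ : V × V => W) id k g ≤ a e := by
      intro e
      have := EA_le y hW0 hW k (g := g) (g' := g + vi y (id e)) (c := 0)
        (fun ω => by simp only [Pi.add_apply]; omega)
      simp only [Nat.cast_zero, add_zero] at this
      exact this
    have hhi : ∀ e, a e ≤ ER y (fun x => (x:ℝ)) (fun _ : V × V => W) id k g + 2 := by
      intro e
      have := EA_le y hW0 hW k (g := g + vi y (id e)) (g' := g) (c := 2)
        (fun ω => by have := vi_le y (id e) ω; simp only [Pi.add_apply]; omega)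
      simp only [Nat.cast_ofNat] at this
      exact this
    set B : ℝ := ER y (fun x => (x:ℝ)) (fun _ : V × V => W) id k g
    have hAlo : B ≤ A := by
      rw [hAe]
      calc B = ∑ _e : V × V, W * B := by rw [← Finset.sum_mul, hW, one_mul]
        _ ≤ _ := Finset.sum_le_sum fun e _ => mul_le_mul_of_nonneg_left (hlo e) hW0
    have hAhi : A ≤ B + 2 := by
      rw [hAe]
      calc ∑ e, W * a e ≤ ∑ _e : V × V, W * (B + 2) :=
            Finset.sum_le_sum fun e _ => mul_le_mul_of_nonneg_left (hhi e) hW0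
        _ = B + 2 := by rw [← Finset.sum_mul, hW, one_mul]
    calc ER y (fun x => ((x:ℝ) - c) ^ 2) (fun _ : V × V => W) id (k+1) g
        = ∑ e : V × V, W * ER y (fun x => ((x:ℝ) - c) ^ 2) (fun _ : V × V => W) id k
            (g + vi y (id e)) := by simp only [ER]
      _ ≤ ∑ e : V × V, (((A - c) ^ 2 - 2 * (A - c) * A + 4 + 4 * k) * W
            + 2 * (A - c) * (W * a e)) := by
          apply Finset.sum_le_sum
          intro e _
          have h1 := mul_le_mul_of_nonneg_left (ih (g + vi y (id e))) hW0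
          refine h1.trans ?_
          have h2 : (a e - c) ^ 2 + 4 * k ≤
              ((A - c) ^ 2 - 2 * (A - c) * A + 4 + 4 * k) + 2 * (A - c) * a e := by
            have := hlo e
            have := hhi e
            nlinarith [mul_nonneg (by linarith : 0 ≤ 2 - (a e - A)) (by linarith : 0 ≤ 2 + (a e - A))]
          have h3 := mul_le_mul_of_nonneg_left h2 hW0
          refine h3.trans (le_of_eq ?_)
          ring
      _ = (A - c) ^ 2 + 4 * (k + 1 : ℕ) := by
          rw [Finset.sum_add_distrib, ← Finset.mul_sum, ← Finset.mul_sum, hW, ← hAe]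
          push_cast; ring

theorem split_le {Ω1 Ω2 V1 V2 : Type*} [Nonempty Ω1] [Nonempty Ω2] [Fintype V1] [Fintype V2]
    (y : Ω → V → S) (y1 : Ω1 → V1 → S) (y2 : Ω2 → V2 → S) (i1 : V1 → V) (i2 : V2 → V)
    (sp : Ω1 → Ω2 → Ω)
    (hv1 : ∀ e ω1 ω2, vi y (i1 e.1, i1 e.2) (sp ω1 ω2) = vi y1 e ω1)
    (hv2 : ∀ e ω1 ω2, vi y (i2 e.1, i2 e.2) (sp ω1 ω2) = vi y2 e ω2)
    {α W1 W2 : ℝ} (ha0 : 0 ≤ α) (ha1 : α ≤ 1) (hW10 : 0 ≤ W1) (hW20 : 0 ≤ W2)
    (hW1 : ∑ _e : V1 × V1, W1 = 1) (hW2 : ∑ _e : V2 × V2, W2 = 1)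
    (k : ℕ) (g : Ω → ℕ) (g1 : Ω1 → ℕ) (g2 : Ω2 → ℕ)
    (h : ∀ ω1 ω2, g (sp ω1 ω2) ≤ g1 ω1 + g2 ω2) :
    ER y (fun x => (x:ℝ)) (Sum.elim (fun _ : V1 × V1 => α * W1) (fun _ : V2 × V2 => (1 - α) * W2))
      (Sum.elim (fun e => (i1 e.1, i1 e.2)) (fun e => (i2 e.1, i2 e.2))) k g ≤
      EP y1 α W1 k g1 + EP y2 (1 - α) W2 k g2 := by
  induction k generalizing g g1 g2 with
  | zero =>
    simp only [ER, EP]
    obtain ⟨ω1, h1⟩ := exists_mn g1
    obtain ⟨ω2, h2⟩ := exists_mn g2
    have := h ω1 ω2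
    have := mn_le g (sp ω1 ω2)
    exact_mod_cast (by omega : mn g ≤ mn g1 + mn g2)
  | succ k ih =>
    simp only [ER, Fintype.sum_sum_type, Sum.elim_inl, Sum.elim_inr, EP]
    have hA : ∑ e : V1 × V1, α * W1 * ER y (fun x => (x:ℝ))
        (Sum.elim (fun _ : V1 × V1 => α * W1) (fun _ : V2 × V2 => (1 - α) * W2))
        (Sum.elim (fun e => (i1 e.1, i1 e.2)) (fun e => (i2 e.1, i2 e.2))) k
        (g + vi y (i1 e.1, i1 e.2)) ≤
        α * (∑ e : V1 × V1, W1 * EP y1 α W1 k (g1 + vi y1 e)) + α * EP y2 (1 - α) W2 k g2 := by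
      calc _ ≤ ∑ e : V1 × V1, (α * (W1 * EP y1 α W1 k (g1 + vi y1 e)) +
            (α * EP y2 (1 - α) W2 k g2) * W1) := by
            apply Finset.sum_le_sum
            intro e _
            have := mul_le_mul_of_nonneg_left (ih (g + vi y (i1 e.1, i1 e.2)) (g1 + vi y1 e) g2
              (fun ω1 ω2 => by
                have := h ω1 ω2
                simp only [Pi.add_apply, hv1]; omega)) (mul_nonneg ha0 hW10)
            refine this.trans (le_of_eq ?_)
            ring
        _ = _ := by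
            have h9 : ∑ _e : V1 × V1, (α * EP y2 (1 - α) W2 k g2) * W1 =
                α * EP y2 (1 - α) W2 k g2 := by rw [← Finset.mul_sum, hW1, mul_one]
            rw [Finset.sum_add_distrib, h9, ← Finset.mul_sum]
    have hB : ∑ e : V2 × V2, (1 - α) * W2 * ER y (fun x => (x:ℝ))
        (Sum.elim (fun _ : V1 × V1 => α * W1) (fun _ : V2 × V2 => (1 - α) * W2))
        (Sum.elim (fun e => (i1 e.1, i1 e.2)) (fun e => (i2 e.1, i2 e.2))) k
        (g + vi y (i2 e.1, i2 e.2)) ≤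
        (1 - α) * (∑ e : V2 × V2, W2 * EP y2 (1 - α) W2 k (g2 + vi y2 e)) +
          (1 - α) * EP y1 α W1 k g1 := by
      calc _ ≤ ∑ e : V2 × V2, ((1 - α) * (W2 * EP y2 (1 - α) W2 k (g2 + vi y2 e)) +
            ((1 - α) * EP y1 α W1 k g1) * W2) := by
            apply Finset.sum_le_sum
            intro e _
            have := mul_le_mul_of_nonneg_left (ih (g + vi y (i2 e.1, i2 e.2)) g1 (g2 + vi y2 e)
              (fun ω1 ω2 => by
                have := h ω1 ω2
                simp only [Pi.add_apply, hv2]; omega)) (mul_nonneg (sub_nonneg.2 ha1) hW20)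
            refine this.trans (le_of_eq ?_)
            ring
        _ = _ := by
            have h9 : ∑ _e : V2 × V2, ((1 - α) * EP y1 α W1 k g1) * W2 =
                (1 - α) * EP y1 α W1 k g1 := by rw [← Finset.mul_sum, hW2, mul_one]
            rw [Finset.sum_add_distrib, h9, ← Finset.mul_sum]
    linarith

/-- The main interpolation inequality. -/
theorem interp {Ω1 Ω2 V1 V2 : Type*} [Nonempty Ω1] [Nonempty Ω2] [Fintype V1] [Fintype V2]
    (y : Ω → V → S) (y1 : Ω1 → V1 → S) (y2 : Ω2 → V2 → S) (i1 : V1 → V) (i2 : V2 → V)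
    (sp : Ω1 → Ω2 → Ω)
    (hv1 : ∀ e ω1 ω2, vi y (i1 e.1, i1 e.2) (sp ω1 ω2) = vi y1 e ω1)
    (hv2 : ∀ e ω1 ω2, vi y (i2 e.1, i2 e.2) (sp ω1 ω2) = vi y2 e ω2)
    (hsum : ∀ f : V → ℝ, ∑ p, f p = ∑ p, f (i1 p) + ∑ p, f (i2 p))
    {N1 N2 : ℕ} (hN1 : 0 < N1) (hN2 : 0 < N2) (hc1 : Fintype.card V1 = N1)
    (hc2 : Fintype.card V2 = N2) {s : ℝ} (hs : 0 < s)
    (m n : ℕ) (g : Ω → ℕ) (g1 : Ω1 → ℕ) (g2 : Ω2 → ℕ)
    (h : ∀ ω1 ω2, g (sp ω1 ω2) ≤ g1 ω1 + g2 ω2) (hbal : (N1:ℝ) * n = N2 * m) :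
    ER y (fun x => (x:ℝ)) (fun _ : V × V => 1 / ((N1:ℝ) + N2) ^ 2) id (m + n) g ≤
      ER y1 (fun x => (x:ℝ)) (fun _ : V1 × V1 => 1 / (N1:ℝ) ^ 2) id m g1 +
      ER y2 (fun x => (x:ℝ)) (fun _ : V2 × V2 => 1 / (N2:ℝ) ^ 2) id n g2 +
      2 * ((min m n : ℝ) / s + s) := by
  have hN1' : (0:ℝ) < N1 := by exact_mod_cast hN1
  have hN2' : (0:ℝ) < N2 := by exact_mod_cast hN2
  set α : ℝ := N1 / (N1 + N2) with hα
  have ha0 : 0 ≤ α := by positivity
  have ha1 : α ≤ 1 := by rw [hα, div_le_one (by positivity)]; linarith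
  have hαc : 1 - α = N2 / (N1 + N2) := by rw [hα]; field_simp; ring
  have hW1 : ∑ _e : V1 × V1, 1 / (N1:ℝ) ^ 2 = 1 := by
    simp only [Finset.sum_const, Finset.card_univ, Fintype.card_prod, hc1, nsmul_eq_mul]
    push_cast; field_simp
  have hW2 : ∑ _e : V2 × V2, 1 / (N2:ℝ) ^ 2 = 1 := by
    simp only [Finset.sum_const, Finset.card_univ, Fintype.card_prod, hc2, nsmul_eq_mul]
    push_cast; field_simp
  have hA : ER y (fun x => (x:ℝ)) (fun _ : V × V => 1 / ((N1:ℝ) + N2) ^ 2) id (m + n) g ≤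
      ER y (fun x => (x:ℝ)) (Sum.elim (fun _ : V1 × V1 => α * (1 / (N1:ℝ) ^ 2))
        (fun _ : V2 × V2 => (1 - α) * (1 / (N2:ℝ) ^ 2)))
      (Sum.elim (fun e => (i1 e.1, i1 e.2)) (fun e => (i2 e.1, i2 e.2))) (m + n) g := by
    apply ER_le
    · intro i; positivity
    · intro j
      rcases j with j | j
      · simp only [Sum.elim_inl]; positivity
      · simp only [Sum.elim_inr]; exact mul_nonneg (sub_nonneg.2 ha1) (by positivity)
    · intro g'
      have hb := base_ineq y i1 i2 hsum (by rw [hc1]; exact hN1) (by rw [hc2]; exact hN2) g'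
      rw [hc1, hc2] at hb
      simp only [Fintype.sum_sum_type, Sum.elim_inl, Sum.elim_inr, id, ← Finset.mul_sum]
      rw [hαc, hα]
      have := mul_le_mul_of_nonneg_left hb (by positivity : 0 ≤ 1 / ((N1:ℝ) + N2))
      refine le_trans (le_of_eq ?_) (this.trans (le_of_eq ?_))
      · field_simp
      · field_simp
  have hB := split_le y y1 y2 i1 i2 sp hv1 hv2 ha0 ha1 (by positivity : 0 ≤ 1 / (N1:ℝ) ^ 2)
    (by positivity : 0 ≤ 1 / (N2:ℝ) ^ 2) hW1 hW2 (m + n) g g1 g2 h
  have hC := EP_le_EA y1 ha0 ha1 (by positivity : 0 ≤ 1 / (N1:ℝ) ^ 2) hW1 hs (m + n) m g1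
  have hD := EP_le_EA y2 (sub_nonneg.2 ha1) (by linarith : 1 - α ≤ 1)
    (by positivity : 0 ≤ 1 / (N2:ℝ) ^ 2) hW2 hs (m + n) n g2
  have e1 : ((m + n : ℕ) : ℝ) * α = m := by
    rw [hα]; push_cast; field_simp; linarith
  have e2 : ((m + n : ℕ) : ℝ) * (1 - α) = n := by
    have : ((m + n : ℕ) : ℝ) * (1 - α) = ((m + n : ℕ) : ℝ) - ((m + n : ℕ) : ℝ) * α := by ring
    rw [this, e1]; push_cast; ring
  have e3 : ((m + n : ℕ) : ℝ) * α * (1 - α) ≤ (min m n : ℝ) := by
    rw [e1]
    apply le_min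
    · nlinarith [Nat.cast_nonneg (α := ℝ) m]
    · have : (m:ℝ) * (1 - α) = α * n := by
        rw [← e1, mul_assoc, mul_comm α, ← mul_assoc, e2]; ring
      rw [this]
      nlinarith [Nat.cast_nonneg (α := ℝ) n]
  have e4 : ((m + n : ℕ) : ℝ) * (1 - α) * (1 - (1 - α)) ≤ (min m n : ℝ) := by
    refine le_trans (le_of_eq ?_) e3
    ring
  rw [e1] at hC e3
  rw [e2] at hD e4
  have f1 : ((m:ℝ) * (1 - α) + ((m:ℝ) - m) ^ 2) / s ≤ (min m n : ℝ) / s := by
    apply div_le_div_of_nonneg_right _ hs.le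
    simpa using e3
  have f2 : ((n:ℝ) * (1 - (1 - α)) + ((n:ℝ) - n) ^ 2) / s ≤ (min m n : ℝ) / s := by
    apply div_le_div_of_nonneg_right _ hs.le
    simpa using e4
  linarith

end

end Pool.Agent.V11124.NK
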