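import Mathlib

namespace Pool.Agent.V11124.NK

/-- The necklaces with two beads of each of `t` types: sequences of length `2 * t` over `t` types
in which every type occurs exactly twice. -/
def necklaces (t : ℕ) : Finset (Fin (2 * t) → Fin t) :=
  Finset.univ.filter (fun a => ∀ s : Fin t, (Finset.univ.filter (fun i => a i = s)).card = 2)

/-- `FairSplit a C`: `C` is a set of gaps (gap `j`, for `1 ≤ j ≤ 2 * t - 1`, separates the beads
`j - 1` and `j`, where the beads are numbered from `0`), and the intervals cut out by `C` can be
given to two thieves (`owner`, which changes only across a cut) so that each thief receives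
exactly one bead of every type. -/
def FairSplit {t : ℕ} (a : Fin (2 * t) → Fin t) (C : Finset ℕ) : Prop :=
  C ⊆ Finset.Ico 1 (2 * t) ∧ ∃ owner : Fin (2 * t) → Bool,
    (∀ i j : Fin (2 * t), (j : ℕ) = i + 1 → (j : ℕ) ∉ C → owner i = owner j) ∧
    ∀ (s : Fin t) (b : Bool), (Finset.univ.filter (fun i => a i = s ∧ owner i = b)).card = 1

/-- The minimum number of cuts giving a fair split of the necklace `a` between two thieves. -/
noncomputable def minCuts {t : ℕ} (a : Fin (2 * t) → Fin t) : ℕ :=
  sInf {r | ∃ C : Finset ℕ, FairSplit a C ∧ C.card = r}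

end Pool.Agent.V11124.NK
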