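import Pool.Agent.V11124.NK.Core

namespace Pool.Agent.V11124.NK

open Finset

/-- spin at position `x` of the cut vector `c` -/
def yn (c : ℕ → ZMod 2) (x : ℕ) : ZMod 2 := ∑ j ∈ range (x + 1), c j

/-- spins on the first `N` positions -/
def yy (N : ℕ) (c : ℕ → ZMod 2) (x : Fin N) : ZMod 2 := yn c x

/-- number of cuts among the first `N` indices -/
def g0 (N : ℕ) (c : ℕ → ZMod 2) : ℕ := ((range N).filter (fun j => c j ≠ 0)).card

/-- relaxed minimal number of cuts -/
noncomputable def HN (t N : ℕ) (e : Fin t × Bool → Fin N) : ℕ :=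
  mn (g0 N + ∑ i : Fin t, vi (yy N) (e (i, false), e (i, true)))

theorem push (M1 M2 : ℕ) (r : ℕ → ℕ) (c : ℕ → ZMod 2) :
    ∃ c' : ℕ → ZMod 2, g0 M2 c' ≤ g0 M1 c ∧
      ∀ x1 < M1, ∀ x2, (∀ j < M1, (j ≤ x1 ↔ r j ≤ x2)) → yn c' x2 = yn c x1 := by
  refine ⟨fun k => ∑ j ∈ range M1, if r j = k then c j else 0, ?_, ?_⟩
  · unfold g0
    calc _ ≤ (((range M1).filter (fun j => c j ≠ 0)).image r).card := by
          apply card_le_card
          intro k hk
          simp only [mem_filter] at hk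
          obtain ⟨_, hk⟩ := hk
          obtain ⟨j, hj, hj2⟩ := Finset.exists_ne_zero_of_sum_ne_zero hk
          simp only [mem_image, mem_filter]
          by_cases h : r j = k
          · rw [if_pos h] at hj2
            exact ⟨j, ⟨hj, hj2⟩, h⟩
          · rw [if_neg h] at hj2; exact absurd rfl hj2
      _ ≤ _ := card_image_le
  · intro x1 hx1 x2 h
    unfold yn
    rw [sum_comm]
    simp only [sum_ite_eq]
    rw [← sum_filter]
    apply sum_congr ?_ (fun _ _ => rfl)
    ext j; simp only [mem_filter, mem_range]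
    constructor
    · rintro ⟨h1, h2⟩; have := (h j h1).2 (by omega); omega
    · intro h1; have := (h j (by omega)).1 (by omega); omega

theorem HN_le_of {t N1 N2 : ℕ} (e : Fin t × Bool → Fin N1) (e' : Fin t × Bool → Fin N2)
    (h : ∀ c, ∃ c', g0 N2 c' ≤ g0 N1 c ∧ ∀ b, yn c' (e' b) = yn c (e b)) :
    HN t N2 e' ≤ HN t N1 e := by
  unfold HN
  obtain ⟨c, hc⟩ := exists_mn (g0 N1 + ∑ i : Fin t, vi (yy N1) (e (i, false), e (i, true)))
  obtain ⟨c', h1, h2⟩ := h c
  rw [← hc]
  refine (mn_le _ c').trans ?_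
  simp only [Pi.add_apply, Finset.sum_apply, vi, yy, h2]
  exact Nat.add_le_add_right h1 _

theorem HN_comp {t m N : ℕ} (ι : Fin m → Fin N) (hι : StrictMono ι) (e : Fin t × Bool → Fin m) :
    HN t N (ι ∘ e) = HN t m e := by
  apply le_antisymm
  · apply HN_le_of
    intro c
    obtain ⟨c', h1, h2⟩ := push m N (fun j => if h : j < m then (ι ⟨j, h⟩ : ℕ) else 0) c
    refine ⟨c', h1, fun b => h2 _ (e b).2 _ ?_⟩
    intro j hj
    simp only [dif_pos hj, Function.comp]
    rw [← Fin.le_def, hι.le_iff_le, Fin.le_def]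
  · apply HN_le_of
    intro c
    obtain ⟨c', h1, h2⟩ := push N m (fun k => ((univ : Finset (Fin m)).filter
      (fun j => (ι j : ℕ) < k)).card) c
    refine ⟨c', h1, fun b => h2 _ (ι (e b)).2 _ ?_⟩
    intro k hk
    constructor
    · intro h
      have : ((univ : Finset (Fin m)).filter (fun j => (ι j : ℕ) < k)) ⊆ Finset.Iio (e b) := by
        intro j hj
        simp only [mem_filter, mem_univ, true_and] at hj
        rw [Finset.mem_Iio]
        apply hι.lt_iff_lt.1
        rw [Fin.lt_def]; omega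
      have h3 := card_le_card this
      rw [Fin.card_Iio] at h3
      exact h3
    · intro h
      by_contra hcon
      have : Finset.Iic (e b) ⊆ ((univ : Finset (Fin m)).filter (fun j => (ι j : ℕ) < k)) := by
        intro j hj
        rw [Finset.mem_Iic] at hj
        have := hι.monotone hj
        rw [Fin.le_def] at this
        simp only [mem_filter, mem_univ, true_and]
        omega
      have h3 := card_le_card this
      rw [Fin.card_Iic] at h3
      omega

theorem HN_bound (t N : ℕ) (e : Fin t × Bool → Fin N) : HN t N e ≤ 2 * t := by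
  unfold HN
  refine (mn_le _ 0).trans ?_
  simp only [Pi.add_apply, Finset.sum_apply]
  have h1 : g0 N 0 = 0 := by simp [g0]
  have h2 : ∑ i : Fin t, vi (yy N) (e (i, false), e (i, true)) 0 ≤ ∑ _i : Fin t, 2 :=
    Finset.sum_le_sum fun i _ => vi_le _ _ _
  simp only [Finset.sum_const, Finset.card_univ, Fintype.card_fin, smul_eq_mul] at h2
  omega

theorem ER_eq_sum {Ω V S : Type*} [DecidableEq S] [Fintype V] (y : Ω → V → S) (Φ : ℕ → ℝ)
    (W : ℝ) (k : ℕ) (g : Ω → ℕ) :
    ER y Φ (fun _ : V × V => W) id k g =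
      W ^ k * ∑ e : Fin k → V × V, Φ (mn (g + ∑ i, vi y (e i))) := by
  induction k generalizing g with
  | zero => simp [ER]
  | succ k ih =>
    have h : ∑ e : Fin (k+1) → V × V, Φ (mn (g + ∑ i, vi y (e i))) =
        ∑ x : V × V, ∑ e' : Fin k → V × V, Φ (mn (g + vi y x + ∑ i, vi y (e' i))) := by
      rw [← (Fin.consEquiv (fun _ => V × V)).sum_comp, Fintype.sum_prod_type]
      refine sum_congr rfl fun x _ => sum_congr rfl fun e' _ => ?_
      rw [Fin.sum_univ_succ]
      simp only [Fin.consEquiv, Equiv.coe_fn_mk, Fin.cons_zero, Fin.cons_succ]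
      rw [← add_assoc]
    rw [h]
    simp only [ER, id, ih, Finset.mul_sum, pow_succ]
    refine sum_congr rfl fun x _ => sum_congr rfl fun e' _ => ?_
    ring

/-- pairs of endpoints -/
def cv (k : ℕ) (V : Type*) : (Fin k × Bool → V) ≃ (Fin k → V × V) where
  toFun f := fun i => (f (i, false), f (i, true))
  invFun e := fun b => bif b.2 then (e b.1).2 else (e b.1).1
  left_inv f := by
    funext ⟨i, b⟩
    cases b <;> rfl
  right_inv e := by
    funext i
    rfl

/-- average over iid uniform endpoints -/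
noncomputable def IID (Φ : ℕ → ℝ) (t N : ℕ) : ℝ :=
  ER (yy N) Φ (fun _ : Fin N × Fin N => 1 / (N:ℝ) ^ 2) id t (g0 N)

theorem IID_eq (Φ : ℕ → ℝ) (t N : ℕ) :
    IID Φ t N = (∑ e : Fin t × Bool → Fin N, Φ (HN t N e)) / (N:ℝ) ^ (2 * t) := by
  unfold IID
  rw [ER_eq_sum, ← (cv t (Fin N)).sum_comp]
  simp only [HN, cv, Equiv.coe_fn_mk]
  rw [div_pow, one_pow, ← pow_mul]
  ring

theorem vi_eq {Ω V Ω1 V1 S : Type*} [DecidableEq S] {y : Ω → V → S} {y1 : Ω1 → V1 → S}
    {e : V × V} {e1 : V1 × V1} {ω : Ω} {ω1 : Ω1}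
    (h : y ω e.1 = y ω e.2 ↔ y1 ω1 e1.1 = y1 ω1 e1.2) : vi y e ω = vi y1 e1 ω1 := by
  unfold vi
  by_cases h1 : y ω e.1 = y ω e.2
  · rw [if_pos h1, if_pos (h.1 h1)]
  · rw [if_neg h1, if_neg (fun h2 => h1 (h.2 h2))]

theorem near_subadd {m n M : ℕ} (hm : 0 < m) (hn : 0 < n) (hM : 0 < M) {s : ℝ} (hs : 0 < s) :
    IID (fun x => (x:ℝ)) (m + n) (m * M + n * M) ≤
      IID (fun x => (x:ℝ)) m (m * M) + IID (fun x => (x:ℝ)) n (n * M) +
        2 * ((min m n : ℝ) / s + s) := by
  have hN1 : 0 < m * M := Nat.mul_pos hm hM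
  have hN2 : 0 < n * M := Nat.mul_pos hn hM
  set N1 := m * M with hN1d
  set N2 := n * M with hN2d
  have hsp1 : ∀ (ω1 ω2 : ℕ → ZMod 2) (x : ℕ), x < N1 →
      yn (fun j => if j < N1 then ω1 j else ω2 (j - N1)) x = yn ω1 x := by
    intro ω1 ω2 x hx
    unfold yn
    apply Finset.sum_congr rfl
    intro j hj
    rw [mem_range] at hj
    exact if_pos (by omega)
  have hsp2 : ∀ (ω1 ω2 : ℕ → ZMod 2) (x : ℕ),
      yn (fun j => if j < N1 then ω1 j else ω2 (j - N1)) (N1 + x) =
        (∑ j ∈ range N1, ω1 j) + yn ω2 x := by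
    intro ω1 ω2 x
    unfold yn
    rw [add_assoc, Finset.sum_range_add]
    congr 1
    · apply Finset.sum_congr rfl
      intro j hj
      rw [mem_range] at hj
      exact if_pos (by omega)
    · apply Finset.sum_congr rfl
      intro j hj
      refine (if_neg (by omega)).trans ?_
      congr 1; omega
  have := interp (yy (N1 + N2)) (yy N1) (yy N2) (Fin.castAdd N2) (Fin.natAdd N1)
    (fun ω1 ω2 => fun j => if j < N1 then ω1 j else ω2 (j - N1))
    (by
      intro e ω1 ω2
      apply vi_eq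
      simp only [yy, Fin.val_castAdd]
      rw [hsp1 ω1 ω2 _ e.1.2, hsp1 ω1 ω2 _ e.2.2])
    (by
      intro e ω1 ω2
      apply vi_eq
      simp only [yy, Fin.val_natAdd]
      rw [hsp2 ω1 ω2, hsp2 ω1 ω2]
      simp only [add_right_inj])
    (fun f => Fin.sum_univ_add f) hN1 hN2 (Fintype.card_fin _) (Fintype.card_fin _) hs m n
    (g0 (N1 + N2)) (g0 N1) (g0 N2)
    (by
      intro ω1 ω2
      unfold g0
      calc _ ≤ (((range N1).filter (fun j => ω1 j ≠ 0)) ∪
            (((range N2).filter (fun j => ω2 j ≠ 0)).image (fun j => N1 + j))).card := by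
            apply card_le_card
            intro j hj
            simp only [mem_filter, mem_range, mem_union, mem_image] at hj ⊢
            obtain ⟨h1, h2⟩ := hj
            by_cases h : j < N1
            · rw [if_pos h] at h2; exact Or.inl ⟨h, h2⟩
            · rw [if_neg h] at h2; exact Or.inr ⟨j - N1, ⟨by omega, h2⟩, by omega⟩
        _ ≤ _ := card_union_le _ _
        _ ≤ _ := Nat.add_le_add_left card_image_le _)
    (by rw [hN1d, hN2d]; push_cast; ring)
  unfold IID
  push_cast at this ⊢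
  exact this

theorem IID_var (c : ℝ) (t N : ℕ) (hN : 0 < N) :
    IID (fun x => ((x:ℝ) - c) ^ 2) t N ≤ (IID (fun x => (x:ℝ)) t N - c) ^ 2 + 4 * t := by
  have hN' : (0:ℝ) < N := by exact_mod_cast hN
  apply var_le _ (by positivity)
  simp only [Finset.sum_const, Finset.card_univ, Fintype.card_prod, Fintype.card_fin, nsmul_eq_mul]
  push_cast; field_simp

end Pool.Agent.V11124.NK
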