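import Pool.Agent.V11124.NK.Transfer
import Pool.Agent.V11124.NK.Defs

namespace Pool.Agent.V11124.NK

open Finset Filter Topology

/-- necklace of a labelling of the positions -/
def nk {t : ℕ} (σ : (Fin t × Bool) ≃ Fin (2 * t)) : Fin (2 * t) → Fin t := fun i => (σ.symm i).1

theorem card_nk {t : ℕ} (σ : (Fin t × Bool) ≃ Fin (2 * t)) (owner : Fin (2 * t) → Bool)
    (s : Fin t) (b : Bool) :
    (Finset.univ.filter (fun i => nk σ i = s ∧ owner i = b)).card =
      (if owner (σ (s, true)) = b then 1 else 0) + (if owner (σ (s, false)) = b then 1 else 0) := by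
  rw [card_filter, ← σ.sum_comp, Fintype.sum_prod_type, Finset.sum_eq_single s]
  · rw [Fintype.sum_bool]; simp [nk]
  · intro s' _ hs'; simp [nk, hs']
  · simp

theorem nk_mem {t : ℕ} (σ : (Fin t × Bool) ≃ Fin (2 * t)) : nk σ ∈ necklaces t := by
  unfold necklaces
  simp only [mem_filter, mem_univ, true_and]
  intro s
  rw [card_filter, ← σ.sum_comp, Fintype.sum_prod_type, Finset.sum_eq_single s]
  · simp [nk]
  · intro s' _ hs'; simp [nk, hs']
  · simp

/-- the difference vector of a single flip -/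
def bb (p : ℕ) : ℕ → ZMod 2 := fun j => (if j = p then 1 else 0) + (if j = p + 1 then 1 else 0)

theorem yn_add (c d : ℕ → ZMod 2) (x : ℕ) : yn (c + d) x = yn c x + yn d x := by
  simp [yn, Finset.sum_add_distrib]

theorem yn_bb (p x : ℕ) : yn (bb p) x = if x = p then 1 else 0 := by
  unfold yn bb
  rw [Finset.sum_add_distrib, Finset.sum_ite_eq', Finset.sum_ite_eq']
  simp only [mem_range]
  rcases lt_trichotomy x p with h | h | h
  · rw [if_neg (by omega), if_neg (by omega), if_neg (by omega)]; simp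
  · rw [if_pos (by omega), if_neg (by omega), if_pos h]; simp
  · rw [if_pos (by omega), if_pos (by omega), if_neg (by omega)]; exact CharTwo.add_self_eq_zero 1

theorem g0_add (N : ℕ) (c d : ℕ → ZMod 2) : g0 N (c + d) ≤ g0 N c + g0 N d := by
  unfold g0
  refine le_trans (card_le_card ?_) (card_union_le _ _)
  intro j hj
  simp only [mem_filter, mem_union, Pi.add_apply] at hj ⊢
  by_contra hcon
  have h1 : c j = 0 := by by_contra h; exact hcon (Or.inl ⟨hj.1, h⟩)
  have h2 : d j = 0 := by by_contra h; exact hcon (Or.inr ⟨hj.1, h⟩)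
  exact hj.2 (by rw [h1, h2, add_zero])

theorem g0_bb (N p : ℕ) : g0 N (bb p) ≤ 2 := by
  unfold g0
  refine le_trans (card_le_card (t := {p, p + 1}) ?_) Finset.card_le_two
  intro j hj
  simp only [mem_filter, bb] at hj
  simp only [mem_insert, mem_singleton]
  by_contra hcon
  push Not at hcon
  exact hj.2 (by rw [if_neg hcon.1, if_neg hcon.2, add_zero])

/-- repairing a set of edges -/
theorem repair {t : ℕ} (σ : (Fin t × Bool) ≃ Fin (2 * t)) (c : ℕ → ZMod 2) (T : Finset (Fin t)) :
    ∃ c', g0 (2 * t) c' ≤ g0 (2 * t) c + 2 * T.card ∧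
      ∀ p : Fin t × Bool, yn c' (σ p) = yn c (σ p) + if p.1 ∈ T ∧ p.2 = false then 1 else 0 := by
  classical
  induction T using Finset.induction_on with
  | empty => exact ⟨c, by simp, fun p => by simp⟩
  | insert i T hi ih =>
    obtain ⟨c', h1, h2⟩ := ih
    refine ⟨c' + bb (σ (i, false)), ?_, ?_⟩
    · have := g0_add (2 * t) c' (bb (σ (i, false)))
      have := g0_bb (2 * t) (σ (i, false))
      rw [card_insert_of_notMem hi]
      omega
    · intro p
      rw [yn_add, h2, yn_bb, add_assoc]
      congr 1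
      by_cases hp : p = (i, false)
      · subst hp
        simp [hi]
      · have h3 : ¬ ((σ p : ℕ) = (σ (i, false) : ℕ)) := by
          intro h; exact hp (σ.injective (Fin.ext h))
        rw [if_neg h3, add_zero]
        have h4 : (p.1 ∈ insert i T ∧ p.2 = false) ↔ (p.1 ∈ T ∧ p.2 = false) := by
          rw [mem_insert]
          constructor
          · rintro ⟨h5 | h5, h6⟩
            · exact absurd (Prod.ext h5 h6) hp
            · exact ⟨h5, h6⟩
          · rintro ⟨h5, h6⟩; exact ⟨Or.inr h5, h6⟩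
        by_cases h5 : p.1 ∈ T ∧ p.2 = false
        · rw [if_pos h5, if_pos (h4.2 h5)]
        · rw [if_neg h5, if_neg (fun h => h5 (h4.1 h))]

theorem zmod2_ne {a b : ZMod 2} (h : a ≠ b) : a + 1 = b := by
  revert a b; decide

theorem exists_fair {t : ℕ} (σ : (Fin t × Bool) ≃ Fin (2 * t)) :
    ∃ C : Finset ℕ, FairSplit (nk σ) C ∧ C.card ≤ HN t (2 * t) σ := by
  classical
  obtain ⟨c, hc⟩ := exists_mn
    (g0 (2 * t) + ∑ i : Fin t, vi (yy (2 * t)) (σ (i, false), σ (i, true)))
  set T : Finset (Fin t) := univ.filter (fun i => yn c (σ (i, false)) = yn c (σ (i, true))) with hT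
  have hval : HN t (2 * t) σ = g0 (2 * t) c + 2 * T.card := by
    unfold HN
    rw [← hc]
    have hvi : ∀ i : Fin t, vi (yy (2 * t)) (σ (i, false), σ (i, true)) c =
        if yn c (σ (i, false)) = yn c (σ (i, true)) then 2 else 0 := fun i => rfl
    simp only [Pi.add_apply, Finset.sum_apply, hvi]
    rw [← Finset.sum_filter, Finset.sum_const, smul_eq_mul, mul_comm 2 T.card]
  obtain ⟨c', h1, h2⟩ := repair σ c T
  have hne : ∀ s : Fin t, yn c' (σ (s, false)) ≠ yn c' (σ (s, true)) := by
    intro s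
    rw [h2, h2]
    by_cases hs : s ∈ T
    · have h3 : yn c (σ (s, false)) = yn c (σ (s, true)) := by
        rw [hT] at hs; simpa using hs
      simp [hs, h3]
    · have h3 : yn c (σ (s, false)) ≠ yn c (σ (s, true)) := by
        intro h; exact hs (by rw [hT]; simpa using h)
      simpa [hs] using h3
  refine ⟨(Finset.Ico 1 (2 * t)).filter (fun j => c' j ≠ 0), ⟨filter_subset _ _,
    fun x => decide (yn c' x = 0), ?_, ?_⟩, ?_⟩
  · intro i j hij hj
    have hj0 : c' j = 0 := by
      by_contra h
      apply hj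
      rw [mem_filter, Finset.mem_Ico]
      exact ⟨⟨by omega, j.2⟩, h⟩
    have : yn c' j = yn c' i := by
      unfold yn
      rw [Finset.sum_range_succ, hj0, add_zero, hij]
    simp only [this]
  · intro s b
    rw [card_nk]
    have h3 := hne s
    have key : ∀ u v : ZMod 2, u ≠ v → (if decide (v = 0) = b then 1 else 0) +
        (if decide (u = 0) = b then 1 else 0) = 1 := by
      cases b <;> decide
    exact key _ _ h3
  · rw [hval]
    refine le_trans (card_le_card ?_) h1
    intro j hj
    simp only [mem_filter, Finset.mem_Ico, mem_range] at hj ⊢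
    exact ⟨hj.1.2, hj.2⟩

theorem fair_ge {t : ℕ} (σ : (Fin t × Bool) ≃ Fin (2 * t)) (C : Finset ℕ)
    (hC : FairSplit (nk σ) C) : HN t (2 * t) σ ≤ C.card := by
  classical
  obtain ⟨_, owner, h1, h2⟩ := hC
  set o : ℕ → ZMod 2 := fun x => if h : x < 2 * t then (if owner ⟨x, h⟩ = true then 1 else 0) else 0
    with ho
  set c : ℕ → ZMod 2 := fun j => if j = 0 then 0 else o j + o (j - 1) with hcdef
  have hyn : ∀ x, yn c x = o x + o 0 := by
    intro x
    induction x with
    | zero =>
      unfold yn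
      simp only [zero_add, Finset.sum_range_one, hcdef, if_true]
      exact (CharTwo.add_self_eq_zero (o 0)).symm
    | succ x ih =>
      have : yn c (x + 1) = yn c x + c (x + 1) := by
        unfold yn; rw [Finset.sum_range_succ]
      rw [this, ih]
      simp only [hcdef, Nat.add_sub_cancel, Nat.succ_ne_zero, if_false]
      have h3 := CharTwo.add_self_eq_zero (o x)
      linear_combination h3
  have hg : g0 (2 * t) c ≤ C.card := by
    unfold g0
    apply card_le_card
    intro j hj
    simp only [mem_filter, mem_range] at hj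
    obtain ⟨hj1, hj2⟩ := hj
    by_contra hjC
    apply hj2
    rcases Nat.eq_zero_or_pos j with h0 | hpos
    · simp [hcdef, h0]
    · have h3 := h1 ⟨j - 1, by omega⟩ ⟨j, hj1⟩ (by simp; omega) hjC
      simp only [hcdef, if_neg hpos.ne', ho, dif_pos hj1, dif_pos (by omega : j - 1 < 2 * t), h3]
      exact CharTwo.add_self_eq_zero _
  have hv : ∀ i : Fin t, vi (yy (2 * t)) (σ (i, false), σ (i, true)) c = 0 := by
    intro i
    unfold vi
    rw [if_neg]
    simp only [yy, hyn]
    intro h
    have h3 : o (σ (i, false)) = o (σ (i, true)) := add_right_cancel h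
    have h4 := h2 i true
    rw [card_nk] at h4
    simp only [ho, Fin.is_lt, dif_pos, Fin.eta] at h3
    cases ha : owner (σ (i, true)) <;> cases hb : owner (σ (i, false)) <;> simp [ha, hb] at h3 h4
  unfold HN
  refine (mn_le _ c).trans ?_
  simp only [Pi.add_apply, Finset.sum_apply, hv, Finset.sum_const_zero, add_zero]
  exact hg

theorem minCuts_nk {t : ℕ} (σ : (Fin t × Bool) ≃ Fin (2 * t)) :
    minCuts (nk σ) = HN t (2 * t) σ := by
  obtain ⟨C, hC, hCc⟩ := exists_fair σ
  have hne : {r | ∃ C : Finset ℕ, FairSplit (nk σ) C ∧ C.card = r}.Nonempty := ⟨_, C, hC, rfl⟩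
  apply le_antisymm
  · exact le_trans (Nat.sInf_le ⟨C, hC, rfl⟩) hCc
  · obtain ⟨D, hD, hDc⟩ := Nat.sInf_mem hne
    unfold minCuts
    rw [← hDc]
    exact fair_ge σ D hD

theorem exists_nk {t : ℕ} {a : Fin (2 * t) → Fin t} (ha : a ∈ necklaces t) :
    ∃ σ : (Fin t × Bool) ≃ Fin (2 * t), nk σ = a := by
  classical
  unfold necklaces at ha
  simp only [mem_filter, mem_univ, true_and] at ha
  have F : ∀ s : Fin t, Bool ≃ {i // a i = s} := fun s =>
    Fintype.equivOfCardEq (by rw [Fintype.card_bool, Fintype.card_subtype, ha s])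
  set σ : (Fin t × Bool) ≃ Fin (2 * t) := (Equiv.sigmaEquivProd (Fin t) Bool).symm.trans
    ((Equiv.sigmaCongrRight F).trans (Equiv.sigmaFiberEquiv a)) with hσ
  refine ⟨σ, ?_⟩
  have h1 : ∀ p, a (σ p) = p.1 := by
    intro p
    exact (F p.1 p.2).2
  funext i
  unfold nk
  rw [← h1, Equiv.apply_symm_apply]

theorem fiber_card {t : ℕ} {a : Fin (2 * t) → Fin t} (ha : a ∈ necklaces t) :
    (univ.filter (fun σ : (Fin t × Bool) ≃ Fin (2 * t) => nk σ = a)).card =
      (univ.filter (fun ρ : Equiv.Perm (Fin t × Bool) => ∀ p, (ρ p).1 = p.1)).card := by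
  classical
  obtain ⟨τ, hτ⟩ := exists_nk ha
  apply Finset.card_bij (fun σ _ => σ.trans τ.symm)
  · intro σ hσ
    simp only [mem_filter, mem_univ, true_and] at hσ ⊢
    intro p
    have := congrFun (hσ.trans hτ.symm) (σ p)
    simpa [nk] using this.symm
  · intro σ1 _ σ2 _ h
    apply Equiv.ext
    intro p
    have := congrArg (fun e : Equiv.Perm (Fin t × Bool) => τ (e p)) h
    simpa using this
  · intro ρ hρ
    simp only [mem_filter, mem_univ, true_and] at hρ
    refine ⟨ρ.trans τ, ?_, ?_⟩
    · simp only [mem_filter, mem_univ, true_and]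
      rw [← hτ]
      funext i
      have := hρ (ρ.symm (τ.symm i))
      simp only [Equiv.apply_symm_apply] at this
      simp [nk, this]
    · apply Equiv.ext; intro p; simp

theorem SG_eq (Φ : ℕ → ℝ) (t : ℕ) :
    0 < (necklaces t).card ∧
    SG Φ t = (∑ a ∈ necklaces t, Φ (minCuts a)) / ((necklaces t).card : ℝ) := by
  classical
  set κ := (univ.filter (fun ρ : Equiv.Perm (Fin t × Bool) => ∀ p, (ρ p).1 = p.1)).card with hκ
  have hsum : ∀ Ψ : ℕ → ℝ, ∑ σ : (Fin t × Bool) ≃ Fin (2 * t), Ψ (HN t (2 * t) σ) =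
      κ * ∑ a ∈ necklaces t, Ψ (minCuts a) := by
    intro Ψ
    rw [← Finset.sum_fiberwise_of_maps_to (s := univ) (t := necklaces t) (g := nk)
      (fun σ _ => nk_mem σ), Finset.mul_sum]
    apply Finset.sum_congr rfl
    intro a ha
    have : ∀ σ ∈ univ.filter (fun σ : (Fin t × Bool) ≃ Fin (2 * t) => nk σ = a),
        Ψ (HN t (2 * t) σ) = Ψ (minCuts a) := by
      intro σ hσ
      simp only [mem_filter, mem_univ, true_and] at hσ
      rw [← hσ, minCuts_nk]
    rw [Finset.sum_congr rfl this, Finset.sum_const, fiber_card ha, nsmul_eq_mul]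
  set E : (Fin t × Bool) ≃ Fin (2 * t) := Fintype.equivFinOfCardEq (by simp [mul_comm])
  have hP : (Fintype.card ((Fin t × Bool) ≃ Fin (2 * t)) : ℝ) =
      (Fintype.card (Equiv.Perm (Fin t × Bool)) : ℝ) := by
    congr 1
    exact Fintype.card_congr (Equiv.equivCongr (Equiv.refl _) E.symm)
  have h1 := hsum (fun _ => 1)
  simp only [Finset.sum_const, Finset.card_univ, nsmul_eq_mul, mul_one] at h1
  rw [hP] at h1
  have hPpos : (0:ℝ) < (Fintype.card (Equiv.Perm (Fin t × Bool)) : ℝ) := by
    exact_mod_cast Fintype.card_pos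
  have hpos : (0:ℝ) < (κ:ℝ) * (necklaces t).card := by rw [← h1]; exact hPpos
  have hk : (0:ℝ) < κ := by
    rcases (Nat.cast_nonneg (α := ℝ) κ).lt_or_eq with h | h
    · exact h
    · rw [← h, zero_mul] at hpos; exact absurd hpos (lt_irrefl _)
  have hn : (0:ℝ) < (necklaces t).card := by
    rcases (Nat.cast_nonneg (α := ℝ) (necklaces t).card).lt_or_eq with h | h
    · exact h
    · rw [← h, mul_zero] at hpos; exact absurd hpos (lt_irrefl _)
  refine ⟨by exact_mod_cast hn, ?_⟩
  unfold SG
  rw [hsum, h1]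
  field_simp

theorem main : ∃ c : ℝ, ∀ ε > 0,
    Tendsto (fun t : ℕ => (((necklaces t).filter
      (fun a => |(minCuts a : ℝ) / t - c| < ε)).card : ℝ) / ((necklaces t).card : ℝ))
      atTop (𝓝 1) := by
  obtain ⟨c, hc⟩ := limit_exists (fun t => SG (fun x => (x:ℝ)) t)
    (fun t => SG_nonneg (fun h => Nat.cast_nonneg h) t)
    (fun m n hm hn => SG_subadd hm hn)
  refine ⟨c, fun ε hε => ?_⟩
  have hlow : Tendsto (fun t : ℕ => 1 - 16 / ε ^ 2 * ((t:ℝ))⁻¹) atTop (𝓝 1) := by
    have := ((tendsto_inv_atTop_zero.comp tendsto_natCast_atTop_atTop).const_mul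
      (16 / ε ^ 2)).const_sub (1:ℝ)
    simpa using this
  refine tendsto_of_tendsto_of_tendsto_of_le_of_le' hlow tendsto_const_nhds ?_ ?_
  · have h1 : ∀ᶠ t : ℕ in atTop, |SG (fun x => (x:ℝ)) t / t - c| < ε / 2 := by
      have := Metric.tendsto_nhds.1 hc (ε / 2) (by positivity)
      simpa [Real.dist_eq] using this
    filter_upwards [h1, eventually_ge_atTop 1] with t ht ht1
    have htpos : (0:ℝ) < t := by exact_mod_cast ht1
    obtain ⟨hnpos, hmean⟩ := SG_eq (fun x => (x:ℝ)) t
    set f := SG (fun x => (x:ℝ)) t with hf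
    have hvar := SG_var t
    rw [← hf] at hvar
    rw [(SG_eq (fun x => ((x:ℝ) - f) ^ 2) t).2] at hvar
    have hn : (0:ℝ) < (necklaces t).card := by exact_mod_cast hnpos
    rw [div_le_iff₀ hn] at hvar
    set G := (necklaces t).filter (fun a => |(minCuts a : ℝ) / t - c| < ε) with hG
    set Bd := (necklaces t).filter (fun a => ¬ |(minCuts a : ℝ) / t - c| < ε) with hBd
    have hcard : G.card + Bd.card = (necklaces t).card :=
      Finset.card_filter_add_card_filter_not _
    have hcard' : (G.card : ℝ) = (necklaces t).card - Bd.card := by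
      rw [← hcard]; push_cast; ring
    have hbad : (Bd.card : ℝ) * (ε * t / 2) ^ 2 ≤ 4 * t * (necklaces t).card := by
      refine le_trans ?_ hvar
      calc (Bd.card : ℝ) * (ε * t / 2) ^ 2 = ∑ _a ∈ Bd, (ε * t / 2) ^ 2 := by
            rw [Finset.sum_const, nsmul_eq_mul]
        _ ≤ ∑ a ∈ Bd, ((minCuts a : ℝ) - f) ^ 2 := by
            apply Finset.sum_le_sum
            intro a ha
            simp only [hBd, mem_filter, not_lt] at ha
            have h2 := ha.2
            have h3 : ε / 2 ≤ |(minCuts a : ℝ) / t - f / t| := by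
              have h4 := abs_sub_le ((minCuts a : ℝ) / t) (f / t) c
              linarith
            have h5 : |(minCuts a : ℝ) / t - f / t| = |(minCuts a : ℝ) - f| / t := by
              rw [← sub_div, abs_div, abs_of_pos htpos]
            rw [h5, le_div_iff₀ htpos] at h3
            rw [← sq_abs ((minCuts a : ℝ) - f)]
            apply pow_le_pow_left₀ (by positivity)
            linarith
        _ ≤ ∑ a ∈ necklaces t, ((minCuts a : ℝ) - f) ^ 2 :=
            Finset.sum_le_sum_of_subset_of_nonneg (filter_subset _ _)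
              (fun _ _ _ => sq_nonneg _)
    rw [hcard', sub_div, div_self hn.ne']
    apply sub_le_sub_left
    rw [div_le_iff₀ hn]
    have h6 : (Bd.card : ℝ) * (ε ^ 2 * t) ≤ 16 * (necklaces t).card := by
      have h7 : (Bd.card : ℝ) * (ε ^ 2 * t) * (t / 4) ≤ (16 * (necklaces t).card) * (t / 4) := by
        refine le_trans (le_of_eq ?_) (hbad.trans (le_of_eq ?_)) <;> ring
      exact le_of_mul_le_mul_right h7 (by positivity)
    have h8 : 16 / ε ^ 2 * (t:ℝ)⁻¹ * (necklaces t).card =
        (16 * (necklaces t).card) / (ε ^ 2 * t) := by field_simp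
    rw [h8, le_div_iff₀ (by positivity)]
    exact h6
  · filter_upwards [] with t
    apply div_le_one_of_le₀ _ (Nat.cast_nonneg _)
    exact_mod_cast card_le_card (filter_subset _ _)

end Pool.Agent.V11124.NK
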