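import Pool.Agent.V11124.NK.Grid

namespace Pool.Agent.V11124.NK

open Finset Filter Topology

/-- average over bijections -/
noncomputable def SG (Φ : ℕ → ℝ) (t : ℕ) : ℝ :=
  (∑ σ : (Fin t × Bool) ≃ Fin (2 * t), Φ (HN t (2 * t) σ)) /
    (Fintype.card (Equiv.Perm (Fin t × Bool)))

theorem inj_case (Φ : ℕ → ℝ) {t N : ℕ} (e : Fin t × Bool → Fin N) (he : Function.Injective e) :
    ∑ π : Equiv.Perm (Fin t × Bool), Φ (HN t N (e ∘ π)) =
      ∑ σ : (Fin t × Bool) ≃ Fin (2 * t), Φ (HN t (2 * t) σ) := by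
  classical
  set s : Finset (Fin N) := univ.image e with hsdef
  have hs : s.card = 2 * t := by
    rw [hsdef, card_image_of_injective _ he, card_univ]; simp [Fintype.card_prod, mul_comm]
  set ι := s.orderEmbOfFin hs with hι
  have hr : ∀ b, ∃ j, ι j = e b := by
    intro b
    have : e b ∈ Set.range ι := by rw [hι, Finset.range_orderEmbOfFin]; simp [hsdef]
    exact this
  choose e0 he0 using hr
  have hinj : Function.Injective e0 := fun a b hab => he (by rw [← he0, ← he0, hab])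
  have hbij : Function.Bijective e0 :=
    (Fintype.bijective_iff_injective_and_card e0).2 ⟨hinj, by simp [mul_comm]⟩
  set E0 := Equiv.ofBijective e0 hbij with hE0
  have h1 : ∀ π : Equiv.Perm (Fin t × Bool), HN t N (e ∘ π) = HN t (2 * t) (π.trans E0) := by
    intro π
    have : e ∘ π = ι ∘ (⇑(π.trans E0)) := by funext b; simp [hE0, he0]
    rw [this, HN_comp ι ι.strictMono]
  simp_rw [h1]
  exact (Equiv.sum_comp (Equiv.equivCongr (Equiv.refl _) E0)
    (fun σ : (Fin t × Bool) ≃ Fin (2 * t) => Φ (HN t (2 * t) σ)))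

theorem sym_sum (Φ : ℕ → ℝ) (t N : ℕ) :
    (Fintype.card (Equiv.Perm (Fin t × Bool)) : ℝ) * ∑ e : Fin t × Bool → Fin N, Φ (HN t N e) =
      ∑ e : Fin t × Bool → Fin N, ∑ π : Equiv.Perm (Fin t × Bool), Φ (HN t N (e ∘ π)) := by
  rw [sum_comm]
  have : ∀ π : Equiv.Perm (Fin t × Bool), ∑ e : Fin t × Bool → Fin N, Φ (HN t N (e ∘ π)) =
      ∑ e : Fin t × Bool → Fin N, Φ (HN t N e) := by
    intro π
    exact Equiv.sum_comp (Equiv.arrowCongr π.symm (Equiv.refl _))
      (fun e : Fin t × Bool → Fin N => Φ (HN t N e))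
  simp_rw [this]
  simp only [Finset.sum_const, Finset.card_univ, nsmul_eq_mul]

theorem card_inj (t N : ℕ) :
    ((univ : Finset (Fin t × Bool → Fin N)).filter Function.Injective).card =
      N.descFactorial (2 * t) := by
  classical
  rw [← Fintype.card_subtype, Fintype.card_congr (Equiv.subtypeInjectiveEquivEmbedding _ _),
    Fintype.card_embedding_eq]
  simp [mul_comm]

theorem IID_close (Φ : ℕ → ℝ) (t N : ℕ) (hN : 0 < N) (hN2 : 2 * t ≤ N) (B : ℝ)
    (hB : ∀ h ≤ 2 * t, |Φ h| ≤ B) :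
    |IID Φ t N - SG Φ t| ≤ 2 * B * (1 - (N.descFactorial (2 * t) : ℝ) / (N:ℝ) ^ (2 * t)) := by
  classical
  have hN' : (0:ℝ) < N := by exact_mod_cast hN
  set P : ℝ := (Fintype.card (Equiv.Perm (Fin t × Bool)) : ℝ) with hP
  have hP0 : 0 < P := by rw [hP]; exact_mod_cast Fintype.card_pos
  set T : ℝ := ∑ σ : (Fin t × Bool) ≃ Fin (2 * t), Φ (HN t (2 * t) σ) with hT
  -- an injective map exists
  obtain ⟨e1, he1⟩ : ∃ e1 : Fin t × Bool → Fin N, Function.Injective e1 := by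
    have : Nonempty (Fin t × Bool ↪ Fin N) :=
      Function.Embedding.nonempty_of_card_le (by simp; omega)
    exact ⟨this.some, this.some.injective⟩
  have hsumb : ∀ e : Fin t × Bool → Fin N,
      |∑ π : Equiv.Perm (Fin t × Bool), Φ (HN t N (e ∘ π))| ≤ P * B := by
    intro e
    refine (Finset.abs_sum_le_sum_abs _ _).trans ?_
    calc _ ≤ ∑ _π : Equiv.Perm (Fin t × Bool), B :=
          Finset.sum_le_sum fun π _ => hB _ (HN_bound _ _ _)
      _ = _ := by simp only [Finset.sum_const, Finset.card_univ, nsmul_eq_mul, hP]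
  have hTb : |T| ≤ P * B := by
    rw [hT, ← inj_case Φ e1 he1]; exact hsumb e1
  have hcardE : (Fintype.card (Fin t × Bool → Fin N) : ℝ) = (N:ℝ) ^ (2 * t) := by
    simp [mul_comm]
  have hdiff : |∑ e : Fin t × Bool → Fin N,
      ((∑ π : Equiv.Perm (Fin t × Bool), Φ (HN t N (e ∘ π))) - T)| ≤
      2 * P * B * ((N:ℝ) ^ (2 * t) - N.descFactorial (2 * t)) := by
    refine (Finset.abs_sum_le_sum_abs _ _).trans ?_
    calc _ ≤ ∑ e : Fin t × Bool → Fin N,
          (2 * P * B - if Function.Injective e then 2 * P * B else 0) := by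
          apply Finset.sum_le_sum
          intro e _
          by_cases he : Function.Injective e
          · rw [if_pos he, inj_case Φ e he, ← hT]; simp
          · rw [if_neg he]
            have h1 := abs_sub (∑ π : Equiv.Perm (Fin t × Bool), Φ (HN t N (e ∘ π))) T
            have h2 := hsumb e
            linarith
      _ = _ := by
          rw [Finset.sum_sub_distrib, ← Finset.sum_filter]
          simp only [Finset.sum_const, nsmul_eq_mul, Finset.card_univ, card_inj, hcardE]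
          ring
  have hmain : IID Φ t N - SG Φ t = (∑ e : Fin t × Bool → Fin N,
      ((∑ π : Equiv.Perm (Fin t × Bool), Φ (HN t N (e ∘ π))) - T)) / (P * (N:ℝ) ^ (2 * t)) := by
    rw [Finset.sum_sub_distrib, ← sym_sum, IID_eq]
    simp only [Finset.sum_const, nsmul_eq_mul, Finset.card_univ, hcardE]
    unfold SG
    rw [← hT, ← hP]
    field_simp
  rw [hmain, abs_div, abs_of_pos (by positivity : 0 < P * (N:ℝ) ^ (2 * t)),
    div_le_iff₀ (by positivity)]
  refine hdiff.trans (le_of_eq ?_)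
  field_simp

theorem tendsto_IID (Φ : ℕ → ℝ) (t : ℕ) :
    Tendsto (fun N => IID Φ t N) atTop (𝓝 (SG Φ t)) := by
  obtain ⟨B, hB⟩ : ∃ B : ℝ, ∀ h ≤ 2 * t, |Φ h| ≤ B :=
    ⟨∑ h ∈ range (2 * t + 1), |Φ h|, fun h hh =>
      Finset.single_le_sum (f := fun h => |Φ h|) (fun _ _ => abs_nonneg _)
        (mem_range.2 (by omega))⟩
  have hd : Tendsto (fun N : ℕ => (N.descFactorial (2 * t) : ℝ) / (N:ℝ) ^ (2 * t)) atTop
      (𝓝 1) := by
    have hz : ∀ᶠ N : ℕ in atTop, ((N:ℝ) ^ (2 * t)) ≠ 0 :=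
      eventually_atTop.2 ⟨1, fun N hN => by
        have : (0:ℝ) < N := by exact_mod_cast hN
        positivity⟩
    exact (Asymptotics.isEquivalent_iff_tendsto_one hz).1 (isEquivalent_descFactorial (2 * t))
  have hr : Tendsto (fun N : ℕ => 2 * B * (1 - (N.descFactorial (2 * t) : ℝ) / (N:ℝ) ^ (2 * t)))
      atTop (𝓝 0) := by
    have := (hd.const_sub 1).const_mul (2 * B)
    simpa using this
  rw [tendsto_iff_norm_sub_tendsto_zero]
  apply squeeze_zero' (Eventually.of_forall fun _ => norm_nonneg _) _ hr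
  refine eventually_atTop.2 ⟨2 * t + 1, fun N hN => ?_⟩
  rw [Real.norm_eq_abs]
  exact IID_close Φ t N (by omega) (by omega) B hB

theorem SG_nonneg {Φ : ℕ → ℝ} (hΦ : ∀ h, 0 ≤ Φ h) (t : ℕ) : 0 ≤ SG Φ t := by
  unfold SG
  exact div_nonneg (Finset.sum_nonneg fun _ _ => hΦ _) (Nat.cast_nonneg _)

theorem SG_subadd {m n : ℕ} (hm : 0 < m) (hn : 0 < n) :
    SG (fun x => (x:ℝ)) (m + n) ≤ SG (fun x => (x:ℝ)) m + SG (fun x => (x:ℝ)) n +
      4 * √(min m n : ℝ) := by
  have hmn : (0:ℝ) < (min m n : ℝ) := lt_min (by exact_mod_cast hm) (by exact_mod_cast hn)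
  have hs : 0 < √(min m n : ℝ) := Real.sqrt_pos.2 hmn
  have hlimM : ∀ k : ℕ, 0 < k → Tendsto (fun M : ℕ => k * M) atTop atTop := fun k hk =>
    tendsto_atTop_mono (fun M => Nat.le_mul_of_pos_left M hk) tendsto_id
  have h1 : Tendsto (fun M : ℕ => IID (fun x => (x:ℝ)) (m + n) (m * M + n * M)) atTop
      (𝓝 (SG (fun x => (x:ℝ)) (m + n))) :=
    (tendsto_IID _ _).comp (tendsto_atTop_mono (fun M => Nat.le_add_right _ _) (hlimM m hm))
  have h2 : Tendsto (fun M : ℕ => IID (fun x => (x:ℝ)) m (m * M)) atTop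
      (𝓝 (SG (fun x => (x:ℝ)) m)) := (tendsto_IID _ _).comp (hlimM m hm)
  have h3 : Tendsto (fun M : ℕ => IID (fun x => (x:ℝ)) n (n * M)) atTop
      (𝓝 (SG (fun x => (x:ℝ)) n)) := (tendsto_IID _ _).comp (hlimM n hn)
  have h4 : (2 * ((min m n : ℝ) / √(min m n : ℝ) + √(min m n : ℝ))) = 4 * √(min m n : ℝ) := by
    rw [Real.div_sqrt]; ring
  rw [← h4]
  refine le_of_tendsto_of_tendsto h1 ((h2.add h3).add_const _) ?_
  refine eventually_atTop.2 ⟨1, fun M hM => ?_⟩
  exact near_subadd hm hn hM hs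

theorem SG_var (t : ℕ) :
    SG (fun x => ((x:ℝ) - SG (fun x => (x:ℝ)) t) ^ 2) t ≤ 4 * t := by
  set c := SG (fun x => (x:ℝ)) t with hc
  have h1 := tendsto_IID (fun x => ((x:ℝ) - c) ^ 2) t
  have h2 : Tendsto (fun N => (IID (fun x => (x:ℝ)) t N - c) ^ 2 + 4 * (t:ℝ)) atTop
      (𝓝 ((c - c) ^ 2 + 4 * t)) :=
    (((tendsto_IID (fun x => (x:ℝ)) t).sub_const c).pow 2).add_const _
  have h3 := le_of_tendsto_of_tendsto h1 h2
    (eventually_atTop.2 ⟨1, fun N hN => IID_var c t N hN⟩)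
  simpa using h3

theorem sqrt_ineq {x z : ℝ} (hx : 0 ≤ x) (hxz : x ≤ z) :
    4 * √x + 8 * √(x + z) ≤ 8 * √x + 8 * √z := by
  have hz : 0 ≤ z := hx.trans hxz
  have h1 : √x ^ 2 = x := Real.sq_sqrt hx
  have h2 : √z ^ 2 = z := Real.sq_sqrt hz
  have h3 : √x ≤ √z := Real.sqrt_le_sqrt hxz
  have h4 : 0 ≤ √x := Real.sqrt_nonneg _
  have h5 : √(x + z) ≤ √x / 2 + √z := by
    rw [Real.sqrt_le_iff]
    constructor
    · positivity
    · nlinarith
  linarith

theorem limit_exists (f : ℕ → ℝ) (h0 : ∀ n, 0 ≤ f n)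
    (h : ∀ m n : ℕ, 0 < m → 0 < n → f (m + n) ≤ f m + f n + 4 * √(min m n : ℝ)) :
    ∃ c, Tendsto (fun n : ℕ => f n / n) atTop (𝓝 c) := by
  have hsub : Subadditive (fun n : ℕ => f n + 8 * √(n:ℝ)) := by
    intro m n
    rcases Nat.eq_zero_or_pos m with rfl | hm
    · simp only [zero_add, Nat.cast_zero, Real.sqrt_zero, mul_zero, add_zero]
      linarith [h0 0]
    rcases Nat.eq_zero_or_pos n with rfl | hn
    · simp only [add_zero, Nat.cast_zero, Real.sqrt_zero, mul_zero]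
      linarith [h0 0]
    have h1 := h m n hm hn
    simp only
    push_cast
    rcases le_total (m:ℝ) (n:ℝ) with hmn | hmn
    · rw [min_eq_left hmn] at h1
      have := sqrt_ineq (Nat.cast_nonneg m) hmn
      linarith
    · rw [min_eq_right hmn] at h1
      have := sqrt_ineq (Nat.cast_nonneg n) hmn
      rw [add_comm (n:ℝ)] at this
      linarith
  have hb : BddBelow (Set.range fun n : ℕ => (f n + 8 * √(n:ℝ)) / n) := by
    refine ⟨0, ?_⟩
    rintro _ ⟨n, rfl⟩
    have := h0 n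
    positivity
  have hlim := hsub.tendsto_lim hb
  refine ⟨hsub.lim, ?_⟩
  have hs : Tendsto (fun n : ℕ => 8 * √(n:ℝ) / n) atTop (𝓝 0) := by
    have h1 : Tendsto (fun n : ℕ => 8 * (√(n:ℝ))⁻¹) atTop (𝓝 (8 * 0)) :=
      ((tendsto_inv_atTop_zero.comp (Real.tendsto_sqrt_atTop.comp
        tendsto_natCast_atTop_atTop))).const_mul 8
    rw [mul_zero] at h1
    refine h1.congr fun n => ?_
    rw [mul_div_assoc, Real.sqrt_div_self']
    simp
  have := hlim.sub hs
  rw [sub_zero] at this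
  refine this.congr fun n => ?_
  ring

end Pool.Agent.V11124.NK
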